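import Pool.Agent.U581.LB.StmQ
import Pool.Agent.U251.LB.LIM

/-!
# Project LQ, package APX: approximation of the path of the error term
-/

set_option autoImplicit false

namespace Pool.Agent.U402.LB

open Real MeasureTheory Filter Topology ProbabilityTheory Pool.Agent.U581.BM Pool.Agent.U581.LB
open Pool.Agent.U251.LB (Dh QQ Dh_int QQ_int)

theorem polygon_sub (n : ℕ) (a b : ℕ → ℝ) :
    polygon n a - polygon n b = polygon n fun i => a i - b i := by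
  ext t
  rw [ContinuousMap.sub_apply, polygon_apply, polygon_apply, polygon_apply]
  have h : ∑ k ∈ Finset.range n, (a (k + 1) - b (k + 1) - (a k - b k)) * cl (n * t - k) =
      ∑ k ∈ Finset.range n, (a (k + 1) - a k) * cl (n * t - k) -
        ∑ k ∈ Finset.range n, (b (k + 1) - b k) * cl (n * t - k) := by
    rw [← Finset.sum_sub_distrib]
    exact Finset.sum_congr rfl fun k _ => by ring
  rw [h]
  ring

theorem polygon_norm {n : ℕ} (hn : 0 < n) (c : ℕ → ℝ) {S : ℝ} (hS : ∀ i ≤ n, |c i| ≤ S) :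
    ‖polygon n c‖ ≤ S := by
  have hS0 : 0 ≤ S := (abs_nonneg _).trans (hS 0 (Nat.zero_le _))
  rw [ContinuousMap.norm_le _ hS0]
  intro t
  obtain ⟨m, hm, h1, h2⟩ := exists_block hn t
  rw [polygon_eq c t hm h1 h2, Real.norm_eq_abs,
    show c m + (c (m + 1) - c m) * (n * t - m) =
      (1 - (n * t - m)) * c m + (n * t - m) * c (m + 1) by ring]
  have a1 := hS m hm.le
  have a2 := hS (m + 1) hm
  have b1 : (0 : ℝ) ≤ n * t - m := by linarith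
  have b2 : (0 : ℝ) ≤ 1 - (n * t - m) := by linarith
  generalize (n : ℝ) * t - m = w at b1 b2
  calc |(1 - w) * c m + w * c (m + 1)|
      ≤ |(1 - w) * c m| + |w * c (m + 1)| := abs_add_le _ _
    _ = (1 - w) * |c m| + w * |c (m + 1)| := by
        rw [abs_mul, abs_mul, abs_of_nonneg b1, abs_of_nonneg b2]
    _ ≤ (1 - w) * S + w * S :=
        add_le_add (mul_le_mul_of_nonneg_left a1 b2) (mul_le_mul_of_nonneg_left a2 b1)
    _ = S := by ring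

theorem dist_sq {ρ : ℝ} {M : ℕ} (hM : 1 ≤ M) (L : ℕ) (T x : ℝ) :
    ‖pathR ρ M (T * x) - pathU ρ M L (T * x)‖ ^ 2 ≤ QQ ρ M (L ^ 2) T x := by
  have e : pathR ρ M (T * x) - pathU ρ M L (T * x) = polygon M fun i =>
      (Dh (L ^ 2) T (ρ * (i / M)) x - Dh (L ^ 2) T 0 x) / sg ρ := by
    unfold pathR pathU
    rw [polygon_sub]
    congr 1
    funext i
    unfold Dh
    rw [div_mul_eq_div_div, add_zero]
    ring
  have hle : ∀ i ≤ M, ((Dh (L ^ 2) T (ρ * (i / M)) x - Dh (L ^ 2) T 0 x) / sg ρ) ^ 2 ≤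
      QQ ρ M (L ^ 2) T x := by
    intro i hi
    have h1 : ∀ j ∈ Finset.range (M + 1), 0 ≤ 2 / sg ρ ^ 2 *
        (Dh (L ^ 2) T (ρ * ((j : ℕ) / M)) x ^ 2 + Dh (L ^ 2) T 0 x ^ 2) := fun j _ => by positivity
    refine le_trans ?_ (Finset.single_le_sum h1 (Finset.mem_range.mpr (Nat.lt_succ_of_le hi)))
    rw [div_pow, div_mul_eq_mul_div]
    apply div_le_div_of_nonneg_right _ (sq_nonneg _)
    nlinarith [sq_nonneg (Dh (L ^ 2) T (ρ * (i / M)) x + Dh (L ^ 2) T 0 x)]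
  have hQ0 : 0 ≤ QQ ρ M (L ^ 2) T x := (sq_nonneg _).trans (hle 0 (Nat.zero_le _))
  rw [e]
  have h2 := polygon_norm (n := M) hM
    (fun i => (Dh (L ^ 2) T (ρ * (i / M)) x - Dh (L ^ 2) T 0 x) / sg ρ)
    (S := √(QQ ρ M (L ^ 2) T x)) (fun i hi => Real.abs_le_sqrt (hle i hi))
  calc _ ≤ √(QQ ρ M (L ^ 2) T x) ^ 2 := pow_le_pow_left₀ (norm_nonneg _) h2 2
    _ = _ := Real.sq_sqrt hQ0

theorem t_APX (hMSQ : S_MSQ) : S_APX := by
  intro c₁ c₂ K s hc hs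
  obtain ⟨C, τ, T₀, hC, hτ, h⟩ := hMSQ c₁ c₂ K s hc hs
  refine ⟨4 * C, τ, max T₀ 1, by positivity, hτ, ?_⟩
  intro T ρ M L hT hρ0 hρ1 hM hL hLT μ hμ ε hε
  have hprob := hμ.prob
  have hT0 : T₀ ≤ T := (le_max_left _ _).trans hT
  have hT1 : 0 < T := lt_of_lt_of_le one_pos ((le_max_right _ _).trans hT)
  have hsg := Pool.Agent.U251.LB.sg_pos hρ0 hρ1
  have hM0 : (0 : ℝ) < M := by exact_mod_cast hM
  have hmean : ∀ i ∈ Finset.range (M + 1),
      ∫ x, Dh (L ^ 2) T (ρ * (i / M)) x ^ 2 ∂μ ≤ C * (L : ℝ) ^ (-τ) := by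
    intro i hi
    have hi' : (i : ℝ) ≤ M := by exact_mod_cast Nat.lt_succ_iff.mp (Finset.mem_range.mp hi)
    have h1 : (i : ℝ) / M ≤ 1 := by rwa [div_le_one hM0]
    have h2 : (0 : ℝ) ≤ (i : ℝ) / M := by positivity
    exact h T (ρ * (i / M)) L hT0 (by positivity) (by nlinarith) hL hLT μ hμ
  have hzero : ∫ x, Dh (L ^ 2) T 0 x ^ 2 ∂μ ≤ C * (L : ℝ) ^ (-τ) :=
    h T 0 L hT0 le_rfl zero_le_one hL hLT μ hμ
  have hQ : ∫ x, QQ ρ M (L ^ 2) T x ∂μ ≤ 4 * C * (M + 1) * (L : ℝ) ^ (-τ) / sg ρ ^ 2 := by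
    have i1 : ∀ i ∈ Finset.range (M + 1), Integrable (fun x => 2 / sg ρ ^ 2 *
        (Dh (L ^ 2) T (ρ * ((i : ℕ) / M)) x ^ 2 + Dh (L ^ 2) T 0 x ^ 2)) μ := fun i _ =>
      ((Dh_int hc hT1 hμ _ _).add (Dh_int hc hT1 hμ _ _)).const_mul _
    unfold QQ
    rw [integral_finsetSum _ i1]
    have e1 : ∀ i ∈ Finset.range (M + 1), ∫ x, 2 / sg ρ ^ 2 *
        (Dh (L ^ 2) T (ρ * ((i : ℕ) / M)) x ^ 2 + Dh (L ^ 2) T 0 x ^ 2) ∂μ ≤
          4 / sg ρ ^ 2 * (C * (L : ℝ) ^ (-τ)) := by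
      intro i hi
      rw [integral_const_mul, integral_add (Dh_int hc hT1 hμ _ _) (Dh_int hc hT1 hμ _ _)]
      have q1 := hmean i hi
      have q3 : 0 ≤ 2 / sg ρ ^ 2 := by positivity
      have q4 := mul_le_mul_of_nonneg_left (add_le_add q1 hzero) q3
      refine q4.trans (le_of_eq ?_)
      ring
    refine (Finset.sum_le_sum e1).trans (le_of_eq ?_)
    rw [Finset.sum_const, Finset.card_range, nsmul_eq_mul]
    push_cast
    field_simp
  have hQint : Integrable (fun x => QQ ρ M (L ^ 2) T x) μ := QQ_int hc hT1 hμ ρ M (L ^ 2)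
  have hQ0 : ∀ x, 0 ≤ QQ ρ M (L ^ 2) T x := fun x => (sq_nonneg _).trans (dist_sq hM L T x)
  have hmk := mul_meas_ge_le_integral_of_nonneg (Eventually.of_forall hQ0) hQint (ε ^ 2)
  have hsub : {x | ε < ‖pathR ρ M (T * x) - pathU ρ M L (T * x)‖} ⊆
      {x | ε ^ 2 ≤ QQ ρ M (L ^ 2) T x} := by
    intro x hx
    have hx' : ε < ‖pathR ρ M (T * x) - pathU ρ M L (T * x)‖ := hx
    exact (pow_le_pow_left₀ hε.le hx'.le 2).trans (dist_sq hM L T x)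
  have hmono : μ.real {x | ε < ‖pathR ρ M (T * x) - pathU ρ M L (T * x)‖} ≤
      μ.real {x | ε ^ 2 ≤ QQ ρ M (L ^ 2) T x} := measureReal_mono hsub
  have hε2 : 0 < ε ^ 2 := by positivity
  calc μ.real {x | ε < ‖pathR ρ M (T * x) - pathU ρ M L (T * x)‖}
      ≤ μ.real {x | ε ^ 2 ≤ QQ ρ M (L ^ 2) T x} := hmono
    _ ≤ (4 * C * (M + 1) * (L : ℝ) ^ (-τ) / sg ρ ^ 2) / ε ^ 2 := by
        rw [le_div_iff₀ hε2, mul_comm]
        exact hmk.trans hQ
    _ = 4 * C * (M + 1) * (L : ℝ) ^ (-τ) / (ε ^ 2 * sg ρ ^ 2) := by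
        rw [div_div, mul_comm (sg ρ ^ 2)]

end Pool.Agent.U402.LB
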